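import Pool.Agent.H61.HB.Stmts

/-!
Row GLU of board hbg.
-/

set_option autoImplicit false

namespace HB

theorem glu_thm (_hRES : RESStmt) : GLUStmt := by
  intro ν s T₁ T₂ u v hT₁ hT₂ hu hv h0
  set w : ℝ → V := fun t => if t ≤ T₁ then u t else v (t - T₁) with hw
  set A : Set ℝ := Set.Icc 0 T₁ with hA
  set B : Set ℝ := Set.Icc T₁ (T₁ + T₂) with hB
  have hAB : Set.Icc 0 (T₁ + T₂) = A ∪ B := by
    rw [hA, hB, Set.Icc_union_Icc_eq_Icc hT₁ (by linarith)]
  have hwA : ∀ r ∈ A, w r = u r := by
    intro r hr
    exact if_pos hr.2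
  have hwB : ∀ r ∈ B, w r = v (r - T₁) := by
    intro r hr
    by_cases h : r ≤ T₁
    · have h1 : r = T₁ := le_antisymm h hr.1
      rw [h1, sub_self, h0]
      exact if_pos le_rfl
    · exact if_neg h
  have hshift : ∀ r ∈ B, r - T₁ ∈ Set.Icc 0 T₂ := by
    intro r hr
    exact ⟨by linarith [hr.1], by linarith [hr.2]⟩
  have hbot : ∀ (C : Set ℝ) (t : ℝ), IsClosed C → t ∉ C → nhdsWithin t C = ⊥ := by
    intro C t hC ht
    by_contra h
    have h1 : (nhdsWithin t C).NeBot := ⟨h⟩
    have h2 : t ∈ closure C := mem_closure_iff_nhdsWithin_neBot.2 h1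
    rw [hC.closure_eq] at h2
    exact ht h2
  have hcA : IsClosed A := isClosed_Icc
  have hcB : IsClosed B := isClosed_Icc
  refine ⟨⟨?_, ?_⟩, ?_⟩
  · intro t ht
    rw [hAB] at ht
    rcases ht with ht | ht
    · change Mem s (w t)
      rw [hwA t ht]
      exact hu.cts.1 t ht
    · change Mem s (w t)
      rw [hwB t ht]
      exact hv.cts.1 _ (hshift t ht)
  · intro t ht
    rw [hAB, nhdsWithin_union, Filter.tendsto_sup]
    constructor
    · by_cases htA : t ∈ A
      · have h1 := hu.cts.2 t htA
        refine h1.congr' ?_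
        filter_upwards [self_mem_nhdsWithin] with r hr
        change nsq s (u r - u t) = nsq s (w r - w t)
        rw [hwA r hr, hwA t htA]
      · rw [hbot A t hcA htA]
        exact Filter.tendsto_bot
    · by_cases htB : t ∈ B
      · have h1 := hv.cts.2 _ (hshift t htB)
        have h2 : Filter.Tendsto (fun r : ℝ => r - T₁) (nhdsWithin t B)
            (nhdsWithin (t - T₁) (Set.Icc 0 T₂)) := by
          apply tendsto_nhdsWithin_of_tendsto_nhds_of_eventually_within
          · exact ((continuous_id.sub continuous_const).tendsto t).mono_left nhdsWithin_le_nhds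
          · filter_upwards [self_mem_nhdsWithin] with r hr
            exact hshift r hr
        refine (h1.comp h2).congr' ?_
        filter_upwards [self_mem_nhdsWithin] with r hr
        change nsq s (v (r - T₁) - v (t - T₁)) = nsq s (w r - w t)
        rw [hwB r hr, hwB t htB]
      · rw [hbot B t hcB htB]
        exact Filter.tendsto_bot
  · intro j k t ht
    change HasDerivWithinAt (fun r => w r j k)
      (-((ν * sq k ^ 2 : ℝ) : ℂ) * w t j k - adv (w t) (w t) j k) (Set.Icc 0 (T₁ + T₂)) t
    rw [hAB]
    apply HasDerivWithinAt.union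
    · by_cases htA : t ∈ A
      · have h1 := hu.eqn j k t htA
        rw [hwA t htA]
        refine h1.congr (fun r hr => ?_) ?_
        · change w r j k = u r j k
          rw [hwA r hr]
        · change w t j k = u t j k
          rw [hwA t htA]
      · rw [hasDerivWithinAt_iff_hasFDerivWithinAt]
        apply HasFDerivWithinAt.of_notMem_closure
        rwa [hcA.closure_eq]
    · by_cases htB : t ∈ B
      · have h1 := hv.eqn j k _ (hshift t htB)
        have h2 : HasDerivWithinAt (fun r : ℝ => r - T₁) 1 B t :=
          (hasDerivWithinAt_id t B).sub_const T₁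
        have h3 := HasDerivWithinAt.scomp t h1 h2 hshift
        rw [one_smul] at h3
        rw [hwB t htB]
        refine h3.congr (fun r hr => ?_) ?_
        · change w r j k = v (r - T₁) j k
          rw [hwB r hr]
        · change w t j k = v (t - T₁) j k
          rw [hwB t htB]
      · rw [hasDerivWithinAt_iff_hasFDerivWithinAt]
        apply HasFDerivWithinAt.of_notMem_closure
        rwa [hcB.closure_eq]

end HB
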