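import Pool.Agent.H61.HB.Stmts

/-!
Row UNQ of board hbg.
-/

set_option autoImplicit false

namespace HB

theorem unq_thm (hDIF : DIFStmt) (hCON : CONStmt) (hMMB : MMBStmt) : UNQStmt := by
  intro ν s T u v hν hs hT hu hv h0 t ht
  obtain ⟨_, _, _, _, _, hsub⟩ := hMMB
  have hbd : ∀ w : ℝ → V, Sol ν s T w → ∃ R : ℝ, ∀ r ∈ Set.Icc 0 T, nsq s (w r) ≤ R := by
    intro w hw
    have h1 := (hCON s T w hw.cts).2
    obtain ⟨R, hR⟩ := (isCompact_Icc.image_of_continuousOn h1).bddAbove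
    exact ⟨R, fun r hr => hR ⟨r, hr, rfl⟩⟩
  obtain ⟨R₁, hR₁⟩ := hbd u hu
  obtain ⟨R₂, hR₂⟩ := hbd v hv
  obtain ⟨K, _, hK⟩ := hDIF ν s T (max 0 (max R₁ R₂)) hν hs hT (le_max_left _ _)
  have h1 := hK T ⟨hT, le_rfl⟩ u v hu hv (fun r hr =>
    ⟨(hR₁ r hr).trans ((le_max_left _ _).trans (le_max_right _ _)),
      (hR₂ r hr).trans ((le_max_right _ _).trans (le_max_right _ _))⟩) t ht
  have h2 : nsq s (u 0 - v 0) = 0 := by
    rw [h0, sub_self]
    simp [nsq, nqS]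
  rw [h2, mul_zero] at h1
  have hmem := (hsub s (u t) (v t) (hu.cts.1 t ht) (hv.cts.1 t ht)).1
  have hpos : ∀ j k, 0 ≤ (1 + sq k) ^ s * ‖(u t - v t) j k‖ ^ 2 := by
    intro j k
    have : 0 ≤ 1 + sq k := by
      unfold sq
      positivity
    positivity
  have hnn : ∀ j, 0 ≤ nqS s ((u t - v t) j) := fun j => tsum_nonneg (hpos j)
  have h3 : ∀ j, nqS s ((u t - v t) j) = 0 := by
    intro j
    have h4 : nqS s ((u t - v t) j) ≤ nsq s (u t - v t) :=
      Finset.single_le_sum (f := fun j => nqS s ((u t - v t) j)) (fun i _ => hnn i)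
        (Finset.mem_univ j)
    exact le_antisymm (h4.trans h1) (hnn j)
  funext j k
  have h5 : (1 + sq k) ^ s * ‖(u t - v t) j k‖ ^ 2 ≤ nqS s ((u t - v t) j) :=
    (hmem j).le_tsum k (fun i _ => hpos j i)
  rw [h3 j] at h5
  have h6 : 0 < (1 + sq k) ^ s := by
    apply Real.rpow_pos_of_pos
    unfold sq
    positivity
  have h7 : ‖(u t - v t) j k‖ ^ 2 ≤ 0 := by
    by_contra h8
    rw [not_le] at h8
    exact absurd h5 (not_le.2 (mul_pos h6 h8))
  have h8 : ‖(u t - v t) j k‖ = 0 := by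
    have := sq_nonneg ‖(u t - v t) j k‖
    exact pow_eq_zero_iff (two_ne_zero) |>.1 (le_antisymm h7 this)
  exact sub_eq_zero.1 (norm_eq_zero.1 h8)

end HB
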